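import Mathlib

/-!
# The explicit conflict conjecture fails for stable semantics

There is an argumentation framework with 19 arguments such that no framework on the same arguments
has the same stable extensions and is conflict-explicit under stable semantics.

The arguments are `s₁ s₂ s₃ c₁ c₂ c₃ z₁ z₂ z₃` (numbers `0, …, 8`), a second copy
`s'₁ … z'₃` of these (numbers `9, …, 17`) and `w` (number `18`). Two different arguments are
compatible in the following cases: both are in `S = {s₁, s₂, s₃}`, both in `C`, both in `Z`;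
`sᵢ` and `cⱼ` for `i ≠ j`; `sᵢ` and `zᵢ`; `cᵢ` and `z'ⱼ` for all `i, j`; the same with the two
copies exchanged; `w` and each of `z₂, z₃, z'₂, z'₃`. All other pairs attack each other in both
directions with the following exceptions: no `sᵢ` attacks `s'₁`, no `s'ᵢ` attacks `s₁`, and
neither `s₁` nor `s'₁` attacks `w`. The stable extensions are the maximal sets of pairwise
compatible arguments with the exception of `S` and `S'`. In a conflict-explicit framework with the
same stable extensions, `S` and `S'` attack all arguments outside of `S ∪ S'`; as `S` and `S'` are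
not stable, some `s' ∈ S'` is not attacked by `S` and some `s ∈ S` is not attacked by `S'`. But
`s` and `s'` are never together in a stable extension, so that one of them attacks the other one.
-/

set_option autoImplicit false
set_option synthInstance.maxSize 100000

namespace Pool.Agent.Results.MP_360586_lc.ExplicitConflictFails

/-- An argumentation framework: a set `A` of arguments from the countably infinite universe `ℕ`
and an attack relation `R ⊆ A × A`. -/
structure AF where
  /-- the arguments -/
  A : Set ℕ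
  /-- the attacks; `(a, b) ∈ R` means that `a` attacks `b` -/
  R : Set (ℕ × ℕ)
  sub : R ⊆ A ×ˢ A

/-- `E` is conflict-free: no member of `E` attacks a member of `E`. -/
def AF.ConflictFree (F : AF) (E : Set ℕ) : Prop := ∀ a ∈ E, ∀ b ∈ E, (a, b) ∉ F.R

/-- The range of `E`: the members of `E` and the arguments attacked by members of `E`. -/
def AF.range (F : AF) (E : Set ℕ) : Set ℕ := E ∪ {a | a ∈ F.A ∧ ∃ e ∈ E, (e, a) ∈ F.R}

/-- The set of stable extensions of `F`. -/
def AF.st (F : AF) : Set (Set ℕ) := {E | E ⊆ F.A ∧ F.ConflictFree E ∧ F.range E = F.A}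

/-- The pairs of arguments that lie together in a member of `X`. -/
def Pairs (X : Set (Set ℕ)) : Set (ℕ × ℕ) := {p | ∃ E ∈ X, p.1 ∈ E ∧ p.2 ∈ E}

/-- `F` is conflict-explicit under stable semantics: any two (possibly equal) arguments which are
never together in a stable extension are joined by an attack in at least one direction. -/
def AF.ConflictExplicit (F : AF) : Prop :=
  ∀ a ∈ F.A, ∀ b ∈ F.A, (a, b) ∉ Pairs F.st → (a, b) ∈ F.R ∨ (b, a) ∈ F.R

/-! ### The example -/

/-- The attacks of argument `a` as the bits of a number. -/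
def row (a : ℕ) : ℕ :=
  [261512, 523600, 523488, 294849, 294850, 294852, 495166, 233021, 233019, 201214, 434686, 377342,
    492095, 492607, 493631, 294343, 31687, 30663, 65151].getD a 0

/-- `a` attacks `b`. -/
abbrev att (a b : ℕ) : Prop := (row a).testBit b = true

/-- Some of the stable extensions, as the bits of numbers. -/
def good : List ℕ := [14, 21, 28, 35, 42, 49, 65, 130, 260, 7168, 10752, 14336, 17920, 21504,
  25088, 29120, 33280, 66560, 133120, 229432, 262528, 458752]

/-- The set with the bits of `m`. -/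
def bits (m : ℕ) : Set ℕ := {a | a < 19 ∧ m.testBit a = true}

/-- The framework. -/
def F0 : AF where
  A := {a | a < 19}
  R := {p | p.1 < 19 ∧ p.2 < 19 ∧ att p.1 p.2}
  sub := fun _ hp => ⟨hp.1, hp.2.1⟩

lemma good_stable {m : ℕ} (hm : m ∈ good) : bits m ∈ F0.st := by
  have h1 : ∀ m ∈ good, ∀ a < 19, ∀ b < 19, m.testBit a = true → m.testBit b = true →
      ¬ att a b := by decide +kernel
  have h2 : ∀ m ∈ good, ∀ b < 19, m.testBit b = true ∨
      ∃ a, a < 19 ∧ m.testBit a = true ∧ att a b := by decide +kernel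
  refine ⟨fun a ha => ha.1, fun a ha b hb h => h1 m hm a ha.1 b hb.1 ha.2 hb.2 h.2.2, ?_⟩
  ext b
  constructor
  · rintro (hb | hb)
    · exact hb.1
    · exact hb.1
  · intro hb
    rcases h2 m hm b hb with h | ⟨a, ha, h, h'⟩
    · exact Or.inl ⟨hb, h⟩
    · exact Or.inr ⟨hb, a, ⟨ha, h⟩, ha, hb, h'⟩

/-- No `s ∈ S` and `s' ∈ S'` are together in a stable extension. -/
lemma not_pair {s t : ℕ} (hs : s < 3) (ht : 9 ≤ t) (ht' : t < 12) : (s, t) ∉ Pairs F0.st := by
  rintro ⟨E, hE, h1, h2⟩
  obtain ⟨hsub, hcf, hr⟩ := hE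
  have key : ∀ s < 3, ∀ t < 12, 9 ≤ t → att s t ∨ att t s ∨ ∃ v, v < 19 ∧ ∀ x < 19,
      (x = v ∨ att x v) → (att x s ∨ att s x ∨ att x t ∨ att t x) := by decide +kernel
  have hs19 : s < 19 := by omega
  have ht19 : t < 19 := by omega
  have hno : ∀ x ∈ E, ¬ (att x s ∨ att s x ∨ att x t ∨ att t x) := by
    intro x hx
    have hx19 : x < 19 := hsub hx
    rintro (h | h | h | h)
    · exact hcf x hx s h1 ⟨hx19, hs19, h⟩
    · exact hcf s h1 x hx ⟨hs19, hx19, h⟩
    · exact hcf x hx t h2 ⟨hx19, ht19, h⟩
    · exact hcf t h2 x hx ⟨ht19, hx19, h⟩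
  rcases key s hs t ht' ht with h | h | ⟨v, hv, h⟩
  · exact hcf s h1 t h2 ⟨hs19, ht19, h⟩
  · exact hcf t h2 s h1 ⟨ht19, hs19, h⟩
  · have hv' : v ∈ F0.range E := by rw [hr]; exact hv
    rcases hv' with hv' | ⟨-, e, he, hev⟩
    · exact hno v hv' (h v hv (Or.inl rfl))
    · exact hno e he (h e hev.1 (Or.inr hev.2.2))

/-- The set of the three arguments starting with `k`. -/
def three (k : ℕ) : Set ℕ := {a | k ≤ a ∧ a < k + 3}

lemma three_not_stable {k : ℕ} (hk : k = 0 ∨ k = 9) : three k ∉ F0.st := by
  rintro ⟨-, -, hr⟩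
  rcases hk with rfl | rfl
  · have : (9 : ℕ) ∈ F0.range (three 0) := by
      rw [hr]
      exact (by decide : (9 : ℕ) < 19)
    rcases this with h | ⟨-, e, he, h⟩
    · exact absurd h.2 (by decide)
    · have : ∀ e < 3, ¬ att e 9 := by decide +kernel
      exact this e he.2 h.2.2
  · have : (0 : ℕ) ∈ F0.range (three 9) := by
      rw [hr]
      exact (by decide : (0 : ℕ) < 19)
    rcases this with h | ⟨-, e, he, h⟩
    · exact absurd h.1 (by decide)
    · have : ∀ e < 12, 9 ≤ e → ¬ att e 0 := by decide +kernel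
      exact this e he.2 he.1 h.2.2

section
variable {F : AF} (hA : F.A = F0.A) (hst : F.st = F0.st)
include hA hst

lemma no_attack {m a b : ℕ} (hm : m ∈ good) (ha : a < 19) (hb : b < 19)
    (h1 : m.testBit a = true) (h2 : m.testBit b = true) : (a, b) ∉ F.R := by
  have : bits m ∈ F.st := by rw [hst]; exact good_stable hm
  exact this.2.1 a ⟨ha, h1⟩ b ⟨hb, h2⟩

/-- `s` has to attack `b`. -/
lemma forced {m s b : ℕ} (hm : m ∈ good) (hs : s < 19) (hb : b < 19)
    (hbm : m.testBit b = false)
    (h : ∀ e < 19, m.testBit e = true → e ≠ s →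
      ∃ m' ∈ good, m'.testBit e = true ∧ m'.testBit b = true) : (s, b) ∈ F.R := by
  have hE : bits m ∈ F.st := by rw [hst]; exact good_stable hm
  have hb' : b ∈ F.range (bits m) := by
    rw [hE.2.2, hA]
    exact hb
  rcases hb' with hb' | ⟨-, e, he, heb⟩
  · have := hb'.2
    rw [hbm] at this
    exact absurd this (by decide)
  · by_cases hes : e = s
    · subst hes
      exact heb
    · obtain ⟨m', hm', h1, h2⟩ := h e he.1 he.2 hes
      exact absurd heb (no_attack hA hst hm' he.1 hb h1 h2)

/-- Some argument of the other three-element set is not attacked. -/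
lemma escape {k : ℕ} (hk : k = 0 ∨ k = 9) :
    ∃ b ∈ three (9 - k), ∀ e ∈ three k, (e, b) ∉ F.R := by
  have hns : three k ∉ F.st := by rw [hst]; exact three_not_stable hk
  by_contra hcon
  push Not at hcon
  apply hns
  have hsub : three k ⊆ F.A := by
    intro a ha
    rw [hA]
    have h := ha.2
    have : a < 19 := by rcases hk with rfl | rfl <;> omega
    exact this
  have h1 : ∀ k < 10, (k = 0 ∨ k = 9) → ∀ a < k + 3, k ≤ a → ∀ b < k + 3, k ≤ b →
      ∃ m ∈ good, m.testBit a = true ∧ m.testBit b = true := by decide +kernel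
  have h2 : ∀ k < 10, (k = 0 ∨ k = 9) → ∀ b < 19, ¬ (k ≤ b ∧ b < k + 3) →
      ¬ (9 - k ≤ b ∧ b < 9 - k + 3) → ∃ s, s < k + 3 ∧ k ≤ s ∧ ∃ m ∈ good, m.testBit b = false ∧
        ∀ e < 19, m.testBit e = true → e ≠ s →
          ∃ m' ∈ good, m'.testBit e = true ∧ m'.testBit b = true := by decide +kernel
  have hk10 : k < 10 := by rcases hk with rfl | rfl <;> omega
  refine ⟨hsub, ?_, ?_⟩
  · intro a ha b hb
    obtain ⟨m, hm, h3, h4⟩ := h1 k hk10 hk a ha.2 ha.1 b hb.2 hb.1
    have ha19 : a < 19 := by have := ha.2; omega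
    have hb19 : b < 19 := by have := hb.2; omega
    exact no_attack hA hst hm ha19 hb19 h3 h4
  · ext b
    constructor
    · rintro (hb | hb)
      · exact hsub hb
      · exact hb.1
    · intro hb
      have hb19 : b < 19 := by rw [hA] at hb; exact hb
      by_cases h3 : k ≤ b ∧ b < k + 3
      · exact Or.inl h3
      by_cases h4 : 9 - k ≤ b ∧ b < 9 - k + 3
      · obtain ⟨e, he, h5⟩ := hcon b h4
        exact Or.inr ⟨hb, e, he, h5⟩
      · obtain ⟨s, hs1, hs2, m, hm, hbm, h5⟩ := h2 k hk10 hk b hb19 h3 h4
        refine Or.inr ⟨hb, s, ⟨hs2, hs1⟩, ?_⟩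
        exact forced hA hst hm (by omega) hb19 hbm h5

end

/-- **The explicit conflict conjecture fails.** There is a finite argumentation framework `F`
(with 19 arguments) such that no framework `F'` on the same set of arguments is both
conflict-explicit under stable semantics and has exactly the stable extensions of `F`. -/
theorem result : ∃ F : AF, F.A.ncard = 19 ∧
    ∀ F' : AF, F'.A = F.A → F'.ConflictExplicit → F'.st ≠ F.st := by
  refine ⟨F0, ?_, ?_⟩
  · have : F0.A = ((Finset.range 19 : Finset ℕ) : Set ℕ) := by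
      ext a
      simp [F0]
    rw [this, Set.ncard_coe_finset]
    rfl
  · intro F hA hex hst
    obtain ⟨b, hb, h1⟩ := escape hA hst (k := 0) (Or.inl rfl)
    obtain ⟨s, hs, h2⟩ := escape hA hst (k := 9) (Or.inr rfl)
    have hb1 : 9 ≤ b := hb.1
    have hb2 : b < 12 := hb.2
    have hs1 : s < 3 := hs.2
    have hsA : s ∈ F.A := by
      rw [hA]
      exact (by omega : s < 19)
    have hbA : b ∈ F.A := by
      rw [hA]
      exact (by omega : b < 19)
    have hp : (s, b) ∉ Pairs F.st := by rw [hst]; exact not_pair hs1 hb1 hb2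
    rcases hex s hsA b hbA hp with h | h
    · exact h1 s ⟨Nat.zero_le _, hs1⟩ h
    · exact h2 b ⟨hb1, hb2⟩ h

end Pool.Agent.Results.MP_360586_lc.ExplicitConflictFails
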